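import Mathlib
import Pool.Agent.Helper841.Snow5

set_option autoImplicit false

/-!
For every `q > 2` the square-root snowflake of `L_q([0,1])` has no biLipschitz embedding into
`L_q([0,1])`.  More generally, for every `θ ∈ (0,1)`, the `θ`-snowflake of `L_q([0,1])` has no
biLipschitz embedding into the `L_q` space of any measure space.
-/

namespace Pool.Agent.Results.MP_d89202_an.NoSnowflake

open MeasureTheory

/-- The real Banach space `L_q([0,1])` with Lebesgue measure. -/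
noncomputable abbrev Lq (q : ℝ) := Lp ℝ (ENNReal.ofReal q) (volume.restrict (Set.Icc (0 : ℝ) 1))

/-- `f` is a biLipschitz embedding of the metric space `(L_q([0,1]), ‖x - y‖^θ)` into the
space `L_q(μ)`. -/
def IsSnowflakeEmbedding {α : Type} [MeasurableSpace α] (μ : Measure α) (q θ : ℝ)
    (f : Lq q → Lp ℝ (ENNReal.ofReal q) μ) : Prop :=
  ∃ s D : ℝ, 0 < s ∧ 1 ≤ D ∧ ∀ a b : Lq q,
    s * ‖a - b‖ ^ θ ≤ ‖f a - f b‖ ∧ ‖f a - f b‖ ≤ D * (s * ‖a - b‖ ^ θ)

/-- **Main theorem.** -/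
theorem result (q : ℝ) (hq : 2 < q) :
    (¬ ∃ f : Lq q → Lq q,
      IsSnowflakeEmbedding (volume.restrict (Set.Icc (0 : ℝ) 1)) q (1 / 2) f) ∧
    (∀ θ : ℝ, 0 < θ → θ < 1 → ∀ (α : Type) [MeasurableSpace α] (μ : Measure α),
      ¬ ∃ f : Lq q → Lp ℝ (ENNReal.ofReal q) μ, IsSnowflakeEmbedding μ q θ f) := by
  have key : ∀ θ : ℝ, 0 < θ → θ < 1 → ∀ (α : Type) [MeasurableSpace α] (μ : Measure α),
      ¬ ∃ f : Lq q → Lp ℝ (ENNReal.ofReal q) μ, IsSnowflakeEmbedding μ q θ f := by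
    intro θ h0 h1 α _ μ
    rintro ⟨f, s, D, hs, hD, hf⟩
    exact Pool.Agent.Helper841.Snow.no_snowflake μ hq h0 h1 f s D hs hD hf
  exact ⟨key (1 / 2) (by norm_num) (by norm_num) ℝ _, key⟩

end Pool.Agent.Results.MP_d89202_an.NoSnowflake
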